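import Pool.Agent.H107.SlowRam

/-! MP_28724c_co: the limit of `diagRate k = log R(k,k) / k` exists if and only if the arithmetic
means of these numbers converge; the square of the oscillation of `diagRate` is at most
`16 log 4` times the oscillation of the means. -/

open Filter Topology

namespace Pool.Agent.Results.MP_28724c_co.AveragesDecide

open Pool.Agent.H818R2.Ram

/-- arithmetic mean of `log R(k,k) / k` over `1 ≤ k ≤ N` -/
noncomputable def avg (N : ℕ) : ℝ := (∑ k ∈ Finset.Icc 1 N, diagRate k) / N

theorem result :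
    (∀ k l : ℕ, IsLeast {n : ℕ | Arrows n k l} (R k l)) ∧
    (∀ L : ℝ, Tendsto diagRate atTop (𝓝 L) ↔ Tendsto avg atTop (𝓝 L)) ∧
    (limsup diagRate atTop - liminf diagRate atTop) ^ 2 ≤
      16 * Real.log 4 * (limsup avg atTop - liminf avg atTop) := by
  have hl : 0 < Real.log 4 := Real.log_pos (by norm_num)
  exact ⟨R_isLeast, fun L => Pool.Agent.TH915.HC.tendsto_iff Pool.Agent.H107.SlowRam.slow,
    Pool.Agent.H107.SlowGen.sq_osc Pool.Agent.H107.SlowRam.slow hl (by linarith)⟩

end Pool.Agent.Results.MP_28724c_co.AveragesDecide
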