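import Pool.Agent.H64.BW.Homog

/-!
# Diagonal Ramsey colourings computed in bounded width

Partial result on MP_28724c_co (growth of the diagonal Ramsey numbers).

The vertices are the numbers below `b ^ m`, written with `m` digits in base `b`. A machine with
`w` states reads the digits of two vertices in parallel, in some order, every digit once; its
final state decides the colour of the pair. The vertices carry an arbitrary linear order (the
machine gets the smaller vertex first).

* For every `w` there is `K` such that each colouring computed by a machine with `w` states has a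
  homogeneous set of size `2 ^ n` whenever `K * n ^ w ≤ m`: so on `N = b ^ m` vertices there is a
  homogeneous set of size `exp (c (log N) ^ (1 / w))`.
* If the steps of the machine on equal digits are permutations of the states, or if the machine
  is uniform (the same step at all times: automatic colourings), then `K * n ≤ m` suffices, and
  there are homogeneous sets of size `N ^ c`.
-/

set_option autoImplicit false

open Function

namespace Pool.Agent.Results.MP_28724c_co.BoundedWidth

/-- The digit number `i` of `x` in base `b`. -/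
def digit (b i x : ℕ) : ℕ := x / b ^ i % b

/-- A read-once machine with state set `S` for pairs of numbers with `m` digits: at time `t` it
reads the digit number `order t` of both numbers; if these digits are `i` and `j`, the state
changes from `s` to `step t i j s`. -/
structure Machine (m : ℕ) (S : Type) where
  /-- the order in which the digits are read -/
  order : Equiv.Perm (Fin m)
  /-- the change of the state -/
  step : Fin m → ℕ → ℕ → S → S
  /-- the state at the start -/
  start : S

variable {m : ℕ} {S : Type}

/-- The final state after reading `x` and `y` in base `b`. -/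
def Machine.run (M : Machine m S) (b x y : ℕ) : S :=
  (List.finRange m).foldl
    (fun s t => M.step t (digit b (M.order t) x) (digit b (M.order t) y) s) M.start

/-- Equal digits change the state by a permutation. -/
def Machine.Reversible (M : Machine m S) : Prop :=
  ∀ (t : Fin m) (i : ℕ), Bijective (M.step t i i)

/-- All steps are equal. -/
def Machine.Uniform (M : Machine m S) : Prop := ∀ t t' : Fin m, M.step t = M.step t'

/-- The graph `G` on the numbers below `b ^ m` is computed by `M`: for some linear order of the
vertices (given by `ρ`) and some set `acc` of accepting states, adjacency of `x` and `y` (with `x`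
smaller than `y` in this order) means that the final state is accepting. -/
def Computes (M : Machine m S) (b : ℕ) (G : SimpleGraph (Fin (b ^ m))) : Prop :=
  ∃ (ρ : Fin (b ^ m) → ℕ) (acc : S → Prop), Injective ρ ∧
    ∀ x y : Fin (b ^ m), ρ x < ρ y → (G.Adj x y ↔ acc (M.run b x y))

/-! ### proof -/

open Pool.Agent.H64.BW

/-- digits as elements of `Fin b` -/
def bd (b : ℕ) (hb : 2 ≤ b) (i : Bool) : Fin b := ⟨if i then 1 else 0, by split <;> omega⟩

theorem bd_inj (b : ℕ) (hb : 2 ≤ b) : Injective (bd b hb) := by
  intro i j h
  have := congrArg Fin.val h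
  cases i <;> cases j <;> simp_all [bd]

/-- the vertex with given digits, in reading order -/
noncomputable def vx (M : Machine m S) (b : ℕ) (hb : 2 ≤ b) (u : List Bool) : Fin (b ^ m) :=
  finFunctionFinEquiv fun j => bd b hb (u.getD (M.order.symm j) false)

theorem digit_vx (M : Machine m S) (b : ℕ) (hb : 2 ≤ b) (u : List Bool) (t : Fin m) :
    digit b (M.order t) (vx M b hb u) = (bd b hb (u.getD t false) : ℕ) := by
  have h := congrFun (finFunctionFinEquiv.symm_apply_apply
    (fun j => bd b hb (u.getD (M.order.symm j) false))) (M.order t)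
  have h2 := congrArg Fin.val h
  rw [M.order.symm_apply_apply] at h2
  rw [← h2]
  rfl

theorem vx_inj (M : Machine m S) (b : ℕ) (hb : 2 ≤ b) (u v : List Bool) (hu : u.length = m)
    (hv : v.length = m) (h : vx M b hb u = vx M b hb v) : u = v := by
  have h1 := finFunctionFinEquiv.injective h
  refine List.ext_getElem (hu.trans hv.symm) fun i h2 h3 => ?_
  have h4 := bd_inj b hb (congrFun h1 (M.order ⟨i, hu ▸ h2⟩))
  rw [M.order.symm_apply_apply] at h4
  simpa [List.getD_eq_getElem?_getD, h2, h3] using h4

theorem ev_foldl {α : Type} (F : α → Bool → Bool → S → S) (L : List α) (u v : List Bool)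
    (hu : u.length = L.length) (hv : v.length = L.length) (s : S) :
    ev (L.map F) u v s = (L.zip (u.zip v)).foldl (fun s p => F p.1 p.2.1 p.2.2 s) s := by
  induction L generalizing u v s with
  | nil => simp [ev_nil]
  | cons a L ih =>
    cases u with
    | nil => simp at hu
    | cons i u =>
      cases v with
      | nil => simp at hv
      | cons j v =>
        simp only [List.length_cons, Nat.add_right_cancel_iff] at hu hv
        simp only [List.map_cons, ev, List.zip_cons_cons, List.foldl_cons]
        exact ih u v hu hv _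

/-- the program of the machine on digits `0` and `1` -/
def prog (M : Machine m S) (b : ℕ) (hb : 2 ≤ b) : Prog S :=
  (List.finRange m).map fun t i j => M.step t (bd b hb i : ℕ) (bd b hb j : ℕ)

theorem run_vx (M : Machine m S) (b : ℕ) (hb : 2 ≤ b) (u v : List Bool) (hu : u.length = m)
    (hv : v.length = m) :
    M.run b (vx M b hb u) (vx M b hb v) = ev (prog M b hb) u v M.start := by
  rw [prog, ev_foldl _ _ _ _ (by simpa using hu) (by simpa using hv)]
  have hz : (List.finRange m).zip (u.zip v)
      = (List.finRange m).map fun t : Fin m =>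
        (t, (u.getD (t : ℕ) false, v.getD (t : ℕ) false)) := by
    refine List.ext_getElem (by simp [hu, hv]) fun i h1 h2 => ?_
    have h3 : i < m := by simpa using h2
    simp [List.getD_eq_getElem?_getD, hu, hv]
  rw [hz, List.foldl_map, Machine.run]
  simp only [digit_vx]

/-- **Homogeneous sets of colourings computed in bounded width.** For every number `w` of states
there is a constant `K` such that the following holds for all machines `M` with `w` states, all
`b ≥ 2`, `m`, `n` and `k`.

(1) If `K * n ^ w ≤ m`, or if `K * n ≤ m` and `M` is reversible, or if `K * n ≤ m` and `M` is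
uniform, then for every linear order of the numbers below `b ^ m` there are `2 ^ n` numbers such
that all pairs `x < y` of them lead to the same final state.

(2) If `M` computes a graph on `b ^ m` vertices without cliques and without independent sets of
size `k`, then `m < K * ⌈log₂ k⌉ ^ w`, and `m < K * ⌈log₂ k⌉` if `M` is reversible or uniform. -/
theorem result : ∀ w : ℕ, ∃ K : ℕ,
    (∀ (b m n : ℕ) (M : Machine m (Fin w)) (ρ : Fin (b ^ m) → ℕ), 2 ≤ b → Injective ρ →
      (K * n ^ w ≤ m ∨ (M.Reversible ∧ K * n ≤ m) ∨ (M.Uniform ∧ K * n ≤ m)) →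
      ∃ (H : Finset (Fin (b ^ m))) (a : Fin w), 2 ^ n ≤ H.card ∧
        ∀ x ∈ H, ∀ y ∈ H, ρ x < ρ y → M.run b x y = a) ∧
    (∀ (b m k : ℕ) (M : Machine m (Fin w)) (G : SimpleGraph (Fin (b ^ m))), 2 ≤ b →
      Computes M b G → G.CliqueFree k → Gᶜ.CliqueFree k →
      m < K * Nat.clog 2 k ^ w ∧ (M.Reversible ∨ M.Uniform → m < K * Nat.clog 2 k)) := by
  intro w
  obtain ⟨K, k1, k2, k3⟩ := term_main (Fin w)
  rw [Nat.card_fin] at k1
  have part1 : ∀ (b m n : ℕ) (M : Machine m (Fin w)) (ρ : Fin (b ^ m) → ℕ), 2 ≤ b →
      Injective ρ →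
      (K * 2 ^ (w + 1) * n ^ w ≤ m ∨ (M.Reversible ∧ K * 2 ^ (w + 1) * n ≤ m) ∨
        (M.Uniform ∧ K * 2 ^ (w + 1) * n ≤ m)) →
      ∃ (H : Finset (Fin (b ^ m))) (a : Fin w), 2 ^ n ≤ H.card ∧
        ∀ x ∈ H, ∀ y ∈ H, ρ x < ρ y → M.run b x y = a := by
    intro b m n M ρ hb hρ hyp
    have hlen : (prog M b hb).length = m := by simp [prog]
    have e1 : K * (2 * n) ≤ K * 2 ^ (w + 1) * n := by
      have : 1 ≤ 2 ^ w := Nat.one_le_two_pow
      rw [pow_succ]
      nlinarith [Nat.zero_le (K * n)]
    have hT : Term (prog M b hb) M.start (2 * n) := by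
      rcases hyp with h | ⟨hM, h⟩ | ⟨hM, h⟩
      · refine k1 _ _ _ ?_
        rw [hlen]
        refine le_trans ?_ h
        rw [mul_pow, ← mul_assoc, pow_succ]
        have : K * 2 ^ w ≤ K * (2 ^ w * 2) := by nlinarith [Nat.zero_le (K * 2 ^ w)]
        exact Nat.mul_le_mul_right _ this
      · refine k2 _ _ _ ?_ (by rw [hlen]; exact e1.trans h)
        intro t ht i
        obtain ⟨t', -, rfl⟩ := List.mem_map.1 ht
        exact hM _ _
      · refine k3 _ _ _ ?_ (by rw [hlen]; exact e1.trans h)
        intro t ht t' ht'
        obtain ⟨r, -, rfl⟩ := List.mem_map.1 ht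
        obtain ⟨r', -, rfl⟩ := List.mem_map.1 ht'
        funext i j
        rw [hM r r']
    obtain ⟨H, a, h1, h2⟩ := homog (prog M b hb) M.start n hT (vx M b hb)
      (fun u v hu hv h => vx_inj M b hb u v (hu.trans hlen) (hv.trans hlen) h) ρ hρ
    refine ⟨H, a, h1, fun x hx y hy hxy => ?_⟩
    obtain ⟨u, v, hu, hv, rfl, rfl, h⟩ := h2 x hx y hy hxy
    rw [run_vx M b hb u v (hu.trans hlen) (hv.trans hlen)]
    exact h
  refine ⟨K * 2 ^ (w + 1), part1, ?_⟩
  intro b m k M G hb hG hc hi
  obtain ⟨ρ, acc, hρ, hadj⟩ := hG
  have key : ¬ (K * 2 ^ (w + 1) * Nat.clog 2 k ^ w ≤ m ∨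
      (M.Reversible ∧ K * 2 ^ (w + 1) * Nat.clog 2 k ≤ m) ∨
        (M.Uniform ∧ K * 2 ^ (w + 1) * Nat.clog 2 k ≤ m)) := by
    intro hyp
    obtain ⟨H, a, h1, h2⟩ := part1 b m (Nat.clog 2 k) M ρ hb hρ hyp
    obtain ⟨H', hH', hcard⟩ := Finset.exists_subset_card_eq
      ((Nat.le_pow_clog Nat.one_lt_two k).trans h1)
    by_cases ha : acc a
    · refine hc H' ⟨?_, hcard⟩
      intro x hx y hy hne
      rcases lt_or_gt_of_ne (hρ.ne hne) with h | h
      · exact (hadj x y h).2 (by rw [h2 x (hH' hx) y (hH' hy) h]; exact ha)
      · exact ((hadj y x h).2 (by rw [h2 y (hH' hy) x (hH' hx) h]; exact ha)).symm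
    · refine hi H' ⟨?_, hcard⟩
      intro x hx y hy hne
      rw [SimpleGraph.compl_adj]
      refine ⟨hne, fun hxy => ha ?_⟩
      rcases lt_or_gt_of_ne (hρ.ne hne) with h | h
      · rw [← h2 x (hH' hx) y (hH' hy) h]; exact (hadj x y h).1 hxy
      · rw [← h2 y (hH' hy) x (hH' hx) h]; exact (hadj y x h).1 hxy.symm
  push Not at key
  refine ⟨key.1, ?_⟩
  rintro (h | h)
  · exact key.2.1 h
  · exact key.2.2 h

end Pool.Agent.Results.MP_28724c_co.BoundedWidth
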