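import Pool.Agent.Helper141.CC.Fin

set_option autoImplicit false

/-!
# Diagonal Ramsey numbers of colourings of small communication complexity

A colouring of the edges of `K_n` is a graph `G` on `Fin n` (red edges) together with its complement
(blue edges).  Two players, who hold a vertex `x` and a vertex `y`, compute the colour of `xy`.
`Cost G t`: they can do it in at most `t` steps, where a step is the announcement of one bit by one
of the players or a comparison `f x ≤ g y` of two real numbers, one for each player (an oracle for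
greater-than; with two such steps one can test equality, for example).  `PlainCost G t`: without
comparisons, that is, the deterministic communication complexity is at most `t`.  `Cover G t`: the
pairs are covered by at most `2 ^ t` monochromatic rectangles (nondeterministic complexity of both
colours).

Every colouring of `K_n` has complexity at most `log₂ n + 2`.  The theorem says that colourings
which show the exponential growth of the Ramsey numbers `R(k, k)` need complexity of the order of
`k`, even with the oracle, and gives the growth rate of the Ramsey numbers of the colourings of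
complexity at most `t` for all `t` and `k`.
-/

namespace Pool.Agent.Results.MP_28724c_co.CommunicationComplexity

open Pool.Agent.Helper141.CC

/-- **Main result.** -/
theorem result :
    -- (1) upper bound for all `t` and `k`: complexity at most `t` and no monochromatic `K_k` imply
    -- `log n ≤ 14 t log (2 + k / t)`
    (∀ (n k t : ℕ) (G : SimpleGraph (Fin n)), 1 ≤ n → 1 ≤ k → 1 ≤ t → NoMono G k →
      (Cost G t ∨ Cover G t) → Real.log n ≤ 14 * (t * Real.log (2 + (k : ℝ) / t))) ∧
    -- (2) lower bound for all `8 ≤ t ≤ k`; so for fixed `t` the Ramsey numbers of the colourings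
    -- with cost at most `t` are powers of `k` with exponents between `t / (50 log t)` and `14 t + o(1)`
    (∀ t k : ℕ, 8 ≤ t → t ≤ k → ∃ (n : ℕ) (G : SimpleGraph (Fin n)), 1 ≤ n ∧ NoMono G k ∧
      Cost G t ∧ 1 / 50 * (t * Real.log k / Real.log t) ≤ Real.log n) ∧
    -- (3) every colouring on at most `2 ^ t` vertices has complexity at most `t + 1`, and there are
    -- such colourings without monochromatic `K_k` if `k ≥ 2 t`
    (∀ (n t : ℕ) (G : SimpleGraph (Fin n)), n ≤ 2 ^ t → PlainCost G (t + 1)) ∧
    (∀ t k : ℕ, 3 ≤ k → 2 * t ≤ k → ∃ G : SimpleGraph (Fin (2 ^ t)), NoMono G k ∧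
      PlainCost G (t + 1)) ∧
    (∀ (n t : ℕ) (G : SimpleGraph (Fin n)), PlainCost G t → Cost G t ∧ Cover G t) ∧
    -- (4) the growth rate of the diagonal Ramsey numbers of the colourings of complexity at most
    -- `ε k` is at most `28 ε log (2 / ε)` and at least `ε / 2`
    (∀ ε : ℝ, 0 < ε → ε ≤ 1 → ∃ K : ℕ, ∀ k : ℕ, K ≤ k → ∀ (n : ℕ) (G : SimpleGraph (Fin n)),
      1 ≤ n → NoMono G k → (Cost G ⌊ε * k⌋₊ ∨ Cover G ⌊ε * k⌋₊) →
        Real.log n / k ≤ 28 * (ε * Real.log (2 / ε))) ∧
    (∀ ε : ℝ, 0 < ε → ε ≤ 1 / 2 → ∃ K : ℕ, ∀ k : ℕ, K ≤ k → ∃ (n : ℕ) (G : SimpleGraph (Fin n)),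
      NoMono G k ∧ PlainCost G ⌊ε * k⌋₊ ∧ ε / 2 ≤ Real.log n / k) ∧
    -- (5) a colouring without monochromatic `K_k` on at least `exp (θ k)` vertices has complexity
    -- at least `θ k / (200 log (2 / θ))`
    (∀ θ : ℝ, 0 < θ → θ ≤ 1 → ∃ K : ℕ, ∀ k : ℕ, K ≤ k → ∀ (n : ℕ) (G : SimpleGraph (Fin n)),
      NoMono G k → Real.exp (θ * k) ≤ n → ∀ t : ℕ, (Cost G t ∨ Cover G t) →
        1 / 200 * (θ / Real.log (2 / θ)) * k ≤ t) :=
  ⟨fun _ _ _ _ hn hk ht h hc => upper' hn hk ht h hc, lower',
    fun _ t G hn => plain_all t hn G, lower_plain,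
    fun _ _ _ h => ⟨h.toCost, h.cover⟩, rate_upper', rate_lower', large_cost⟩

end Pool.Agent.Results.MP_28724c_co.CommunicationComplexity
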