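import Pool.Agent.H107.SlowRam

/-! MP_28724c_co: every neighbourhood `(x - ε, x + ε)` of every point between the lower and the
upper limit of `diagRate k = log R(k,k) / k` is visited with upper density at least
`ε / (8 log 4)`. -/

open Filter Topology

namespace Pool.Agent.Results.MP_28724c_co.VisitsHavePositiveDensity

open Pool.Agent.H818R2.Ram

theorem result :
    (∀ k l : ℕ, IsLeast {n : ℕ | Arrows n k l} (R k l)) ∧
    ∀ x ε : ℝ, 0 < ε → ε ≤ 2 →
      liminf diagRate atTop ≤ x → x ≤ limsup diagRate atTop →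
      ∃ᶠ N : ℕ in atTop, ε / (8 * Real.log 4) * (N : ℝ) ≤
        ({k : ℕ | k ∈ Finset.Icc 1 N ∧ |diagRate k - x| < ε}.ncard : ℝ) := by
  have hl : 1 ≤ Real.log 4 := by
    have h2 := Real.log_two_gt_d9
    have : Real.log 4 = 2 * Real.log 2 := by
      rw [show (4 : ℝ) = 2 ^ 2 by norm_num, Real.log_pow]; norm_num
    rw [this]
    linarith
  refine ⟨R_isLeast, fun x ε hε hε2 h1 h2 => ?_⟩
  exact Pool.Agent.H107.SlowGen.visits_dens Pool.Agent.H107.SlowRam.slow (by linarith) hε
    (by linarith) h1 h2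

end Pool.Agent.Results.MP_28724c_co.VisitsHavePositiveDensity
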